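import Pool.Agent.Q61.JS.Main
import Pool.Agent.Q61.JS.Sel
import Pool.Agent.Q61.JS.Mol
import Pool.Agent.Q61.JS.Log
import Pool.Agent.Q61.JS.Uniq
import Pool.Agent.Q38.JS.RAD
import Pool.Agent.Q38.JS.HN
import Pool.Agent.Q38.JS.MULT
import Pool.Agent.Q38.JS.MM
import Pool.Agent.Q90.JS.Cone
import Pool.Agent.Q90.JS.Hup
import Pool.Agent.Q90.JS.Cmp
import Pool.Agent.Q90.JS.Gag
import Pool.Agent.Q223.JS.Proj
import Pool.Agent.Q223.JS.Blow
import Pool.Agent.Q223.JS.Loc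
import Pool.Agent.Q223.JS.Shell
import Pool.Agent.Q225.JS.Meas
import Pool.Agent.Q264.JS.Cov

/-!
# Logarithmic Gagliardo energy of mollifications and the jump set (MP_c377d9_an)

Full answer (affirmative) to Q1: for all `N = n + 1 ≥ 1`, `d`, `q ≥ 1`, every `u` in
`B^{1/q}_{q,∞}(ℝ^N, ℝ^d)` and every integrable `η` (in particular every `η ∈ W^{1,1}`),
`liminf_{ε → 0+} [u_ε]^q_{W^{1/q,q}} / |ln ε| ≥ |∫ η|^q κ_N ∫_{J_u} |u⁺ - u⁻|^q dℋ^{N-1}`.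
-/

namespace Pool.Agent.Results.MP_c377d9_an.JumpEnergyLowerBound

open MeasureTheory Filter Topology Set Metric
open scoped ENNReal NNReal

/-- Euclidean space `ℝ^n`. -/
abbrev E (n : ℕ) := EuclideanSpace ℝ (Fin n)

/-- The half ball `B_r^+(x, ν) = {y ∈ B_r(x) : 0 < (y - x)·ν}`; `B_r^-(x, ν)` is
`halfBall x (-ν) r`. -/
def halfBall {N : ℕ} (x ν : E N) (r : ℝ) : Set (E N) :=
  {y | y ∈ ball x r ∧ 0 < inner ℝ (y - x) ν}

/-- `x` is an approximate jump point of `u` with one-sided limits `a` and `b` in the direction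
`ν`. -/
def IsJump {N d : ℕ} (u : E N → E d) (x : E N) (a b : E d) (ν : E N) : Prop :=
  a ≠ b ∧ ‖ν‖ = 1 ∧
  Tendsto (fun r : ℝ => (∫⁻ y in halfBall x ν r, ‖u y - a‖ₑ) / ENNReal.ofReal (r ^ N))
    (𝓝[>] 0) (𝓝 0) ∧
  Tendsto (fun r : ℝ => (∫⁻ y in halfBall x (-ν) r, ‖u y - b‖ₑ) / ENNReal.ofReal (r ^ N))
    (𝓝[>] 0) (𝓝 0)

/-- The jump set `J_u`. -/
def jumpSet {N d : ℕ} (u : E N → E d) : Set (E N) := {x | ∃ a b ν, IsJump u x a b ν}

/-- The jump size `|u⁺(x) - u⁻(x)|`, as a supremum over all admissible triples `(a, b, ν)` at `x`;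
by `jumpSize_eq` below it is `‖a - b‖` for every admissible triple. -/
noncomputable def jumpSize {N d : ℕ} (u : E N → E d) (x : E N) : ℝ≥0∞ :=
  ⨆ (a : E d) (b : E d) (ν : E N) (_ : IsJump u x a b ν), ‖a - b‖ₑ

/-- The Hausdorff measure `ℋ^n` on `ℝ^(n+1)`: Mathlib's Hausdorff measure `μH[n]` with the usual
normalisation, that is, multiplied by the constant which makes `ℋ^n` on `ℝ^n` give the unit ball
its Lebesgue measure. -/
noncomputable def hausdorff (n : ℕ) : Measure (E (n + 1)) :=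
  (volume (ball (0 : E n) 1) / (μH[(n : ℝ)] : Measure (E n)) (ball (0 : E n) 1)) • μH[(n : ℝ)]

/-- `κ_N = ∫_{S^{N-1}} |z_1| dσ(z)`, `N = n + 1`, with Mathlib's surface measure `toSphere` of the
unit sphere. -/
noncomputable def kappa (n : ℕ) : ℝ≥0∞ :=
  ∫⁻ z : sphere (0 : E (n + 1)) 1, ‖(z : E (n + 1)) 0‖ₑ ∂(volume : Measure (E (n + 1))).toSphere

/-- The Gagliardo energy `[v]^q_{W^{1/q,q}}`, with `N = n + 1`. -/
noncomputable def gagliardo {n d : ℕ} (q : ℝ) (v : E (n + 1) → E d) : ℝ≥0∞ :=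
  ∫⁻ x, ∫⁻ y, ‖v x - v y‖ₑ ^ q / ‖x - y‖ₑ ^ (n + 2)

/-- The mollification `u_ε(x) = ∫ η(z) u(x - ε z) dz`. -/
noncomputable def moll {N d : ℕ} (η : E N → ℝ) (u : E N → E d) (ε : ℝ) (x : E N) : E d :=
  ∫ z, η z • u (x - ε • z)

/-- The jump size is well defined. -/
theorem jumpSize_eq {n d : ℕ} {u : E (n + 1) → E d} (hu : AEStronglyMeasurable u volume)
    {x : E (n + 1)} {a b : E d} {ν : E (n + 1)} (h : IsJump u x a b ν) :
    jumpSize u x = ‖a - b‖ₑ :=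
  Pool.Agent.Q61.JS.jumpSize_eq hu h

open Pool.Agent Q61.JS in
theorem main_holds : Q61.JS.S_MAIN := by
  have hP := Q223.JS.t_PROJ
  have hN := Q38.JS.hn
  have hH := Q90.JS.t_HUP hP hN
  have hCone := Q90.JS.t_CONE
  have hSh := Q223.JS.t_SHELL
  refine Q61.JS.main
    (Q61.JS.sel Q225.JS.meas Q38.JS.rad hCone hH Q90.JS.t_CMP (Q264.JS.cov hP))
    (Q223.JS.t_LOC hCone hH (Q223.JS.t_BLOW hP) Q38.JS.mult)
    (Q61.JS.mol Q38.JS.mm) (Q61.JS.logl Q38.JS.mm Q90.JS.t_GAG hSh) hSh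

/-- **Full answer to Q1.** -/
theorem result (n d : ℕ) (q : ℝ) (hq : 1 ≤ q) (u : E (n + 1) → E d)
    (hu : MemLp u (ENNReal.ofReal q) volume)
    (hB : ∃ C : ℝ≥0, ∀ h : E (n + 1), h ≠ 0 → ∫⁻ y, ‖u (y + h) - u y‖ₑ ^ q ≤ C * ‖h‖ₑ)
    (η : E (n + 1) → ℝ) (hη : Integrable η volume) :
    ENNReal.ofReal (|∫ z, η z| ^ q) * kappa n *
        ∫⁻ x in jumpSet u, jumpSize u x ^ q ∂hausdorff n ≤
      liminf (fun ε : ℝ => gagliardo q (moll η u ε) / ENNReal.ofReal |Real.log ε|) (𝓝[>] 0) :=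
  main_holds n d q u η hq hu hB hη

end Pool.Agent.Results.MP_c377d9_an.JumpEnergyLowerBound
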